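import Pool.Agent.H60.CM.Basic

/-!
# Stable surfaces of constant mean curvature spanning a circle: the planar case
-/

set_option autoImplicit false

open Set Function MeasureTheory Filter Topology
open scoped Manifold ContDiff Matrix
open Pool.Agent.H60.CM

namespace Pool.Agent.H69.CM

theorem dot3 (y z : V3) : y ⬝ᵥ z = y 0 * z 0 + y 1 * z 1 + y 2 * z 2 := by
  simp [dotProduct, Fin.sum_univ_three]

/-- a point of a plane open set is not the farthest from the origin -/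
theorem far_pt (G : Set V3) (hG : IsOpen G) (a : V3) (ha : a ∈ G) (h2 : a 2 = 0) :
    ∃ y ∈ G, y 2 = 0 ∧ a ⬝ᵥ a < y ⬝ᵥ y := by
  obtain ⟨s, hs, hsa⟩ : ∃ s : ℝ, s ^ 2 = 1 ∧ 0 ≤ s * a 0 := by
    rcases le_total 0 (a 0) with h | h
    · exact ⟨1, by norm_num, by linarith⟩
    · exact ⟨-1, by norm_num, by linarith⟩
  set w : ℝ → V3 := fun t => ![a 0 + t * s, a 1, 0] with hw
  have hc : Continuous w := by
    rw [continuous_pi_iff]
    intro i
    fin_cases i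
    · change Continuous fun t : ℝ => a 0 + t * s
      fun_prop
    · change Continuous fun t : ℝ => a 1
      fun_prop
    · change Continuous fun t : ℝ => (0 : ℝ)
      fun_prop
  have h0 : w 0 = a := by
    funext i
    fin_cases i
    · change a 0 + 0 * s = a 0
      ring
    · rfl
    · exact h2.symm
  have h3 : ∀ᶠ t in 𝓝 (0 : ℝ), w t ∈ G := by
    refine hc.continuousAt.eventually_mem ?_
    rw [h0]
    exact hG.mem_nhds ha
  have h4 : ∀ᶠ t in 𝓝[>] (0 : ℝ), w t ∈ G ∧ 0 < t :=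
    (h3.filter_mono nhdsWithin_le_nhds).and self_mem_nhdsWithin
  obtain ⟨t, h5, h6⟩ := h4.exists
  refine ⟨w t, h5, rfl, ?_⟩
  rw [dot3, dot3, h2]
  change a 0 * a 0 + a 1 * a 1 + 0 * 0 < (a 0 + t * s) * (a 0 + t * s) + a 1 * a 1 + 0 * 0
  have h7 : (a 0 + t * s) * (a 0 + t * s) = a 0 * a 0 + 2 * t * (s * a 0) + t ^ 2 * s ^ 2 := by
    ring
  rw [h7, hs]
  have h8 : 0 ≤ 2 * t * (s * a 0) := mul_nonneg (by linarith) hsa
  have h9 : 0 < t ^ 2 := by positivity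
  linarith

theorem pf_UPL (h1 : T_UDK) (h2 : T_UIN) (h3 : T_UBD) (h4 : T_UCV) : T_UPL := by
  intro D hD
  have hr := D.cmc.r_pos
  have hK := h1 D.r hr
  have hY : {y : V3 | (0 : ℝ) * (y ⬝ᵥ y) + 1 * y 2 + 0 = 0} = Ypl := by
    ext y
    simp only [mem_setOf_eq, Ypl, zero_mul, zero_add, one_mul, add_zero]
  have hmaps : ∀ q, D.x q ∈ Ypl := fun q => hD q
  have ha : ∀ q ∈ D.int, Loc D Ypl q := by
    intro q hq
    obtain ⟨U, hU1, hU2, hU3, hU4⟩ := h2 D 0 1 0 (fun p => by rw [hD p]; ring) (fun p h => by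
      have h5 := congrFun h 2
      simp [e3] at h5) q hq
    rw [hY] at hU4
    exact ⟨U, hU1, hU2, fun p _ => hmaps p, hU3, hU4⟩
  have hb : ∀ q ∈ D.int, ∃ p, D.x q ⬝ᵥ D.x q < D.x p ⬝ᵥ D.x p := by
    intro q hq
    obtain ⟨U, hU1, hU2, hU3, hU4, hU5⟩ := ha q hq
    obtain ⟨G, hG, hGU⟩ := hU5 U Subset.rfl hU1
    have h5 : D.x q ∈ G ∩ Ypl := by
      rw [← hGU]
      exact mem_image_of_mem _ hU2
    obtain ⟨y, hy1, hy2, hy3⟩ := far_pt G hG (D.x q) h5.1 (hD q)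
    have h6 : y ∈ D.x '' U := by
      rw [hGU]
      exact ⟨hy1, hy2⟩
    obtain ⟨p, -, hp⟩ := h6
    exact ⟨p, by rw [hp]; exact hy3⟩
  have hcont : Continuous fun p => D.x p ⬝ᵥ D.x p := by
    have hx : Continuous D.x := Dat.Sm.cont D D.smx
    have h5 : ∀ i : Fin 3, Continuous fun p => D.x p i := fun i => (continuous_apply i).comp hx
    have h6 : (fun p => D.x p ⬝ᵥ D.x p) =
        fun p => D.x p 0 * D.x p 0 + D.x p 1 * D.x p 1 + D.x p 2 * D.x p 2 :=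
      funext fun p => dot3 _ _
    rw [h6]
    exact (((h5 0).mul (h5 0)).add ((h5 1).mul (h5 1))).add ((h5 2).mul (h5 2))
  have hmax : ∀ p, D.x p ⬝ᵥ D.x p ≤ D.r ^ 2 := by
    obtain ⟨q₀, -, hq₀⟩ := (isCompact_univ (X := D.S)).exists_isMaxOn univ_nonempty
      hcont.continuousOn
    have h5 : q₀ ∈ D.bd := by
      rcases D.int_or_bd q₀ with h | h
      · obtain ⟨p, hp⟩ := hb q₀ h
        exact absurd (hq₀ (mem_univ p)) (not_le.2 hp)
      · exact h
    have h6 : D.x q₀ ∈ circ D.r := D.cmc.circle.mapsTo h5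
    intro p
    have h7 : D.x p ⬝ᵥ D.x p ≤ D.x q₀ ⬝ᵥ D.x q₀ := hq₀ (mem_univ p)
    rw [h6.2] at h7
    exact h7
  have hin : ∀ q ∈ D.int, D.x q ∈ Kdi D.r \ circ D.r := by
    intro q hq
    obtain ⟨p, hp⟩ := hb q hq
    have h5 := hmax p
    refine ⟨⟨hD q, by linarith⟩, fun h6 => ?_⟩
    have h7 : D.x q ⬝ᵥ D.x q = D.r ^ 2 := h6.2
    linarith
  have hbd := h3 D Ypl (Kdi D.r) hK ha (fun b _ => Eventually.of_forall fun q hq => hin q hq)
  exact h4 D Ypl (Kdi D.r) hK hmaps ha hbd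

end Pool.Agent.H69.CM
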